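import Pool.Agent.Helper68.EKC.Assemble
import Pool.Agent.Helper97.EKC.Sharp

set_option autoImplicit false
open Complex MeasureTheory Metric Set
open scoped Real ComplexConjugate

/-! EKC: the final assembly, from the strip inequality for all directions. -/

namespace Pool.Agent.Helper96.EKC

open Pool.Agent.Helper39.Area Pool.Agent.Helper52.EK Pool.Agent.Helper68.EKC

/-- the only input: the strip inequality in every direction -/
def Cover : Prop :=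
  ∀ u : ℂ, ‖u‖ = 1 →
    StripIneq (9 / 2 * (1 + ((1 + u) / 2).re) - 1 / 20)
      (fun X Y s c => TG (Gu u) ((1 + u) / 2 * X) ((1 + u) / 2 * Y) s c)

theorem upper (cover : Cover) {t : ℂ} (ht0 : t ≠ 0)
    (hreg : 9 * (3 * ‖t‖ - t.re) ≤ 4 * ‖t‖ * (‖t‖ - t.re)) :
    ∃ C : ℝ, ∀ ψ h : ℂ → ℂ, DifferentiableOn ℂ ψ {z : ℂ | 1 < ‖z‖} →
      InjOn ψ {z : ℂ | 1 < ‖z‖} →
      (∃ b : ℂ, Filter.Tendsto (fun z => ψ z - z) (Bornology.cobounded ℂ) (nhds b)) →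
      DifferentiableOn ℂ h {z : ℂ | 1 < ‖z‖} →
      (∀ z : ℂ, 1 < ‖z‖ → Complex.exp (h z) = deriv ψ z) →
      Filter.Tendsto h (Bornology.cobounded ℂ) (nhds 0) →
      ∀ R : ℝ, 1 < R →
      (2 * π)⁻¹ * (∫ θ in (0:ℝ)..(2 * π), ‖Complex.exp (t * h (R * Complex.exp (θ * I)))‖) ≤
        C * (R ^ 2 / (R ^ 2 - 1)) ^ (‖t‖ - 1) := by
  have hn0 : 0 < ‖t‖ := norm_pos_iff.mpr ht0
  have hre1 : t.re ≤ ‖t‖ := Complex.re_le_norm t
  have hre2 : -‖t‖ ≤ t.re := by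
    have := Complex.abs_re_le_norm t
    exact (abs_le.mp this).1
  have hd : 0 < ‖t‖ - t.re := by nlinarith
  have h94 : 9 / 4 < ‖t‖ := by
    by_contra hc
    push Not at hc
    nlinarith
  set u : ℂ := -(conj t / ‖t‖) with hu
  have hu1 : ‖u‖ = 1 := by
    rw [hu, norm_neg, norm_div, RCLike.norm_conj, Complex.norm_real, norm_norm, div_self hn0.ne']
  have hre : u.re = -(t.re / ‖t‖) := by
    rw [hu, Complex.neg_re, Complex.div_ofReal_re, Complex.conj_re]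
  have hal : ((1 + u) / 2).re = (1 - t.re / ‖t‖) / 2 := by
    have h2 : (1 + u) / 2 = (1 + u) / ((2:ℝ) : ℂ) := by norm_num
    rw [h2, Complex.div_ofReal_re, Complex.add_re, Complex.one_re, hre]
    ring
  have hq : -1 ≤ t.re / ‖t‖ ∧ t.re / ‖t‖ ≤ 1 := by
    constructor
    · rw [le_div_iff₀ hn0]; linarith
    · rw [div_le_iff₀ hn0]; linarith
  refine sigma_of_strip_t (t := t) (κ' := 9 / 2 * (1 + ((1 + u) / 2).re) - 1 / 20)
    (by linarith) ?_ ?_ ?_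
  · rw [hal]; linarith [hq.2]
  · exact cover u hu1
  · rw [hal]
    have h5 : 9 / 2 * (1 + (1 - t.re / ‖t‖) / 2) ≤ ‖t‖ - t.re := by
      have h6 : 9 / 2 * (1 + (1 - t.re / ‖t‖) / 2) = 9 * (3 * ‖t‖ - t.re) / (4 * ‖t‖) := by
        field_simp
        ring
      rw [h6, div_le_iff₀ (by positivity)]
      linarith
    linarith

theorem lower {t : ℂ} (ht0 : t ≠ 0)
    (hreg : 9 * (3 * ‖t‖ - t.re) ≤ 4 * ‖t‖ * (‖t‖ - t.re)) :
    ∃ ψ h : ℂ → ℂ, DifferentiableOn ℂ ψ {z : ℂ | 1 < ‖z‖} ∧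
      InjOn ψ {z : ℂ | 1 < ‖z‖} ∧
      (∃ b : ℂ, Filter.Tendsto (fun z => ψ z - z) (Bornology.cobounded ℂ) (nhds b)) ∧
      DifferentiableOn ℂ h {z : ℂ | 1 < ‖z‖} ∧
      (∀ z : ℂ, 1 < ‖z‖ → Complex.exp (h z) = deriv ψ z) ∧
      Filter.Tendsto h (Bornology.cobounded ℂ) (nhds 0) ∧
      ∃ c : ℝ, 0 < c ∧ ∀ R : ℝ, 1 < R →
        c * (R ^ 2 / (R ^ 2 - 1)) ^ (‖t‖ - 1) ≤
          (2 * π)⁻¹ *
            (∫ θ in (0:ℝ)..(2 * π), ‖Complex.exp (t * h (R * Complex.exp (θ * I)))‖) := by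
  have hn0 : 0 < ‖t‖ := norm_pos_iff.mpr ht0
  have hre1 : t.re ≤ ‖t‖ := Complex.re_le_norm t
  have hd : 0 < ‖t‖ - t.re := by nlinarith
  have h94 : 9 / 4 < ‖t‖ := by
    by_contra hc
    push Not at hc
    nlinarith
  set u : ℂ := -(conj t / ‖t‖) with hu
  have hu1 : ‖u‖ = 1 := by
    rw [hu, norm_neg, norm_div, RCLike.norm_conj, Complex.norm_real, norm_norm, div_self hn0.ne']
  have hre : u.re = -(t.re / ‖t‖) := by
    rw [hu, Complex.neg_re, Complex.div_ofReal_re, Complex.conj_re]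
  have hne : u ≠ -1 := by
    intro h
    have h1 : u.re = -1 := by rw [h]; simp
    rw [hre] at h1
    have h2 : t.re / ‖t‖ = 1 := by linarith
    rw [div_eq_one_iff_eq hn0.ne'] at h2
    linarith
  obtain ⟨ψ, h, a1, a2, a3, a4, a5, a6, a7⟩ := Pool.Agent.Helper97.EKC.sharp_u hu1 hne
  obtain ⟨c, hc, hR⟩ := a7 ‖t‖ (by linarith)
  refine ⟨ψ, h, a1, a2, a3, a4, a5, a6, c, hc, fun R h1 => ?_⟩
  have h2 := hR R h1
  have hnC : (‖t‖ : ℂ) ≠ 0 := by exact_mod_cast hn0.ne'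
  have h7 : -((‖t‖ : ℝ) : ℂ) * conj u = t := by
    rw [hu, map_neg, map_div₀, Complex.conj_conj, Complex.conj_ofReal]
    field_simp
  simp only [Complex.norm_exp]
  simp only [h7] at h2
  exact h2

end Pool.Agent.Helper96.EKC
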