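import Pool.Agent.Helper96.EKC.Asm

set_option autoImplicit false
open Complex MeasureTheory Metric Set
open scoped Real ComplexConjugate

/-! The final assembly with a better range of real exponents: the complex exponents of `Asm` and
the real exponents `t ≤ -κ`, from any theorem on the moments of order `-p`, `p ≥ κ`. -/

namespace Pool.Agent.Helper96.EKC

/-- the moments of order `-p`, `p ≥ κ`, over the class Sigma -/
def Moments (κ : ℝ) : Prop :=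
  ∀ p : ℝ, κ ≤ p → ∃ C : ℝ, ∀ ψ : ℂ → ℂ,
    DifferentiableOn ℂ ψ {z : ℂ | 1 < ‖z‖} → InjOn ψ {z : ℂ | 1 < ‖z‖} →
    (∃ b : ℂ, Filter.Tendsto (fun z => ψ z - z) (Bornology.cobounded ℂ) (nhds b)) →
    ∀ R : ℝ, 1 < R →
      (2 * π)⁻¹ * (∫ θ in (0:ℝ)..(2 * π), ‖deriv ψ (R * Complex.exp (θ * I))‖ ^ (-p)) ≤
        C * (R ^ 2 / (R ^ 2 - 1)) ^ (p - 1)

lemma re_abs {t : ℂ} (him : t.im = 0) (hre : t.re ≤ 0) : ‖t‖ = -t.re := by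
  have h : t = ((t.re : ℝ) : ℂ) := by
    apply Complex.ext
    · simp
    · simp [him]
  rw [h, Complex.norm_real, Real.norm_eq_abs, abs_of_nonpos hre]
  simp

lemma norm_exp_pow {p : ℝ} {t h w : ℂ} (ht : t = ((-p : ℝ) : ℂ)) (hw : Complex.exp h = w) :
    ‖Complex.exp (t * h)‖ = ‖w‖ ^ (-p) := by
  rw [← hw, Complex.norm_exp, Complex.norm_exp, ← Real.exp_mul, ht, Complex.re_ofReal_mul]
  congr 1
  ring

theorem upper_real {κ : ℝ} (hκ : 0 < κ) (hm : Moments κ) {t : ℂ} (him : t.im = 0)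
    (hre : t.re ≤ -κ) :
    ∃ C : ℝ, ∀ ψ h : ℂ → ℂ, DifferentiableOn ℂ ψ {z : ℂ | 1 < ‖z‖} →
      InjOn ψ {z : ℂ | 1 < ‖z‖} →
      (∃ b : ℂ, Filter.Tendsto (fun z => ψ z - z) (Bornology.cobounded ℂ) (nhds b)) →
      DifferentiableOn ℂ h {z : ℂ | 1 < ‖z‖} →
      (∀ z : ℂ, 1 < ‖z‖ → Complex.exp (h z) = deriv ψ z) →
      Filter.Tendsto h (Bornology.cobounded ℂ) (nhds 0) →
      ∀ R : ℝ, 1 < R →
      (2 * π)⁻¹ * (∫ θ in (0:ℝ)..(2 * π), ‖Complex.exp (t * h (R * Complex.exp (θ * I)))‖) ≤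
        C * (R ^ 2 / (R ^ 2 - 1)) ^ (‖t‖ - 1) := by
  have hn : ‖t‖ = -t.re := re_abs him (by linarith)
  have ht : t = ((-(-t.re) : ℝ) : ℂ) := by
    apply Complex.ext
    · simp
    · simp [him]
  obtain ⟨C, hC⟩ := hm (-t.re) (by linarith)
  refine ⟨C, fun ψ h a1 a2 a3 a4 a5 a6 R h1 => ?_⟩
  have h2 := hC ψ a1 a2 a3 R h1
  rw [hn]
  refine le_of_eq_of_le ?_ h2
  congr 1
  refine intervalIntegral.integral_congr fun θ _ => ?_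
  refine norm_exp_pow ht (a5 _ ?_)
  rw [norm_mul, Complex.norm_exp_ofReal_mul_I, mul_one, Complex.norm_real, Real.norm_eq_abs]
  exact lt_of_lt_of_le h1 (le_abs_self R)

theorem lower_real {t : ℂ} (him : t.im = 0) (hre : t.re < -1) :
    ∃ ψ h : ℂ → ℂ, DifferentiableOn ℂ ψ {z : ℂ | 1 < ‖z‖} ∧
      InjOn ψ {z : ℂ | 1 < ‖z‖} ∧
      (∃ b : ℂ, Filter.Tendsto (fun z => ψ z - z) (Bornology.cobounded ℂ) (nhds b)) ∧
      DifferentiableOn ℂ h {z : ℂ | 1 < ‖z‖} ∧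
      (∀ z : ℂ, 1 < ‖z‖ → Complex.exp (h z) = deriv ψ z) ∧
      Filter.Tendsto h (Bornology.cobounded ℂ) (nhds 0) ∧
      ∃ c : ℝ, 0 < c ∧ ∀ R : ℝ, 1 < R →
        c * (R ^ 2 / (R ^ 2 - 1)) ^ (‖t‖ - 1) ≤
          (2 * π)⁻¹ *
            (∫ θ in (0:ℝ)..(2 * π), ‖Complex.exp (t * h (R * Complex.exp (θ * I)))‖) := by
  have hn : ‖t‖ = -t.re := re_abs him (by linarith)
  have hne : (1 : ℂ) ≠ -1 := by norm_num
  obtain ⟨ψ, h, a1, a2, a3, a4, a5, a6, a7⟩ :=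
    Pool.Agent.Helper97.EKC.sharp_u (u := 1) (by simp) hne
  obtain ⟨c, hc, hR⟩ := a7 ‖t‖ (by rw [hn]; linarith)
  refine ⟨ψ, h, a1, a2, a3, a4, a5, a6, c, hc, fun R h1 => ?_⟩
  have h2 := hR R h1
  have h7 : -((‖t‖ : ℝ) : ℂ) * conj (1 : ℂ) = t := by
    rw [hn]
    apply Complex.ext
    · simp
    · simp [him]
  simp only [Complex.norm_exp]
  simp only [h7] at h2
  exact h2

/-- both bounds for both kinds of exponents -/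
theorem both {κ : ℝ} (hκ : 1 < κ) (hm : Moments κ) (cover : Cover) {t : ℂ} (ht : t ≠ 0)
    (hreg : 9 * (3 * ‖t‖ - t.re) ≤ 4 * ‖t‖ * (‖t‖ - t.re) ∨ (t.im = 0 ∧ t.re ≤ -κ)) :
    (∃ C : ℝ, ∀ ψ h : ℂ → ℂ, DifferentiableOn ℂ ψ {z : ℂ | 1 < ‖z‖} →
      InjOn ψ {z : ℂ | 1 < ‖z‖} →
      (∃ b : ℂ, Filter.Tendsto (fun z => ψ z - z) (Bornology.cobounded ℂ) (nhds b)) →
      DifferentiableOn ℂ h {z : ℂ | 1 < ‖z‖} →
      (∀ z : ℂ, 1 < ‖z‖ → Complex.exp (h z) = deriv ψ z) →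
      Filter.Tendsto h (Bornology.cobounded ℂ) (nhds 0) →
      ∀ R : ℝ, 1 < R →
      (2 * π)⁻¹ * (∫ θ in (0:ℝ)..(2 * π), ‖Complex.exp (t * h (R * Complex.exp (θ * I)))‖) ≤
        C * (R ^ 2 / (R ^ 2 - 1)) ^ (‖t‖ - 1)) ∧
    (∃ ψ h : ℂ → ℂ, DifferentiableOn ℂ ψ {z : ℂ | 1 < ‖z‖} ∧
      InjOn ψ {z : ℂ | 1 < ‖z‖} ∧
      (∃ b : ℂ, Filter.Tendsto (fun z => ψ z - z) (Bornology.cobounded ℂ) (nhds b)) ∧
      DifferentiableOn ℂ h {z : ℂ | 1 < ‖z‖} ∧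
      (∀ z : ℂ, 1 < ‖z‖ → Complex.exp (h z) = deriv ψ z) ∧
      Filter.Tendsto h (Bornology.cobounded ℂ) (nhds 0) ∧
      ∃ c : ℝ, 0 < c ∧ ∀ R : ℝ, 1 < R →
        c * (R ^ 2 / (R ^ 2 - 1)) ^ (‖t‖ - 1) ≤
          (2 * π)⁻¹ *
            (∫ θ in (0:ℝ)..(2 * π), ‖Complex.exp (t * h (R * Complex.exp (θ * I)))‖)) := by
  rcases hreg with hreg | ⟨him, hre⟩
  · exact ⟨upper cover ht hreg, lower ht hreg⟩
  · exact ⟨upper_real (by linarith) hm him hre, lower_real him (by linarith)⟩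

end Pool.Agent.Helper96.EKC
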